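import Pool.Agent.Lib.MP_365e45_an.Odometer

/-!
MP_365e45_an, Q1: negative answer.

There are an admissible weight satisfying the Fourier approximation condition and an ergodic
measure-preserving system (the `2`-adic odometer) such that for every `r ∈ (1/2, 1)` the bilinear
averages of some `f ∈ L^p`, `g ∈ L^q` with `p, q > 1`, `1/p + 1/q = 1/r`, are unbounded almost
everywhere.

The weight is `w = 1 + h` where, for `n = 64^k + m` with all base-`64` digits of `m < 64^k` smaller
than `32`, `h(n) = ∏ η(digit)` with `η = ±2` an explicit pattern of length `32`, and `h(n) = 0`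
otherwise.
-/

set_option autoImplicit false

namespace Pool.Agent.Results.MP_365e45_an.DivergenceBelowOne

open MeasureTheory Filter Topology
open Pool.Agent.Lib.MP_365e45_an

attribute [local instance] mZ2 bZ2

lemma odo_ergodic : Ergodic odo haar2 := by
  have h : Ergodic ((1 : ℤ_[2]) + ·) haar2 := by
    apply ergodic_add_left_of_denseRange_nsmul
    have := PadicInt.denseRange_natCast (p := 2)
    simpa using this
  have e : (odo : ℤ_[2] → ℤ_[2]) = ((1 : ℤ_[2]) + ·) := by
    funext x
    change x + 1 = 1 + x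
    ring
  rw [e]; exact h

lemma exponents (r : ℝ) (h1 : 1 / 2 < r) (h2 : r < 1) :
    ∃ p q : ℝ, 1 < p ∧ 1 < q ∧ 1 / p + 1 / q = 1 / r ∧
      32 < (4 / 3 : ℝ) ^ (1 / p) * (32 : ℝ) ^ (1 / q) := by
  have hr0 : 0 < r := by linarith
  set a : ℝ := 1 / r - 1 with ha
  have ha0 : 0 < a := by
    rw [ha, sub_pos, lt_div_iff₀ hr0]; linarith
  have ha1 : a < 1 := by
    have : 1 / r < 2 := by rw [div_lt_iff₀ hr0]; linarith
    linarith
  -- `c = log(32)/log(24) > 1`
  have hl24 : 0 < Real.log 24 := Real.log_pos (by norm_num)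
  have hl32 : Real.log 24 < Real.log 32 := Real.log_lt_log (by norm_num) (by norm_num)
  set b : ℝ := min 1 (a * (Real.log 32 / Real.log 24)) with hb
  have hab : a < b := by
    rw [hb, lt_min_iff]
    refine ⟨ha1, ?_⟩
    have : 1 < Real.log 32 / Real.log 24 := by rw [one_lt_div hl24]; exact hl32
    nlinarith
  set t : ℝ := (a + b) / 2 with ht
  have hat : a < t := by rw [ht]; linarith
  have htb : t < b := by rw [ht]; linarith
  have ht1 : t < 1 := lt_of_lt_of_le htb (min_le_left _ _)
  have ht2 : t < a * (Real.log 32 / Real.log 24) := lt_of_lt_of_le htb (min_le_right _ _)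
  have ht0 : 0 < t := by linarith
  set u : ℝ := 1 / r - t with hu
  have hu1 : u < 1 := by linarith
  have hu0 : 0 < u := by
    have : 1 < 1 / r := by linarith
    linarith
  refine ⟨1 / t, 1 / u, ?_, ?_, ?_, ?_⟩
  · rw [lt_div_iff₀ ht0]; linarith
  · rw [lt_div_iff₀ hu0]; linarith
  · rw [one_div_one_div, one_div_one_div, hu]; ring
  · rw [one_div_one_div, one_div_one_div]
    have hlog : Real.log 32 < Real.log ((4 / 3 : ℝ) ^ t * (32 : ℝ) ^ u) := by
      rw [Real.log_mul (by positivity) (by positivity), Real.log_rpow (by norm_num),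
        Real.log_rpow (by norm_num)]
      have h43 : Real.log (4 / 3) = Real.log 32 - Real.log 24 := by
        rw [← Real.log_div (by norm_num) (by norm_num)]; norm_num
      rw [h43]
      have h3 : t * Real.log 24 < a * Real.log 32 := by
        have := mul_lt_mul_of_pos_right ht2 hl24
        have e : a * (Real.log 32 / Real.log 24) * Real.log 24 = a * Real.log 32 := by
          field_simp
        rwa [e] at this
      have h4 : u = 1 + a - t := by rw [hu, ha]; ring
      rw [h4]
      nlinarith
    exact (Real.log_lt_log_iff (by norm_num) (by positivity)).1 hlog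

/-- One admissible weight satisfying the Fourier approximation condition and one ergodic system for
which pointwise convergence of the weighted bilinear averages fails for every `r ∈ (1/2, 1)`. -/
theorem result :
    ∃ (w : ℤ → ℂ) (S : ℚ → ℂ) (M : ℕ → ℕ), Admissible w S M ∧ FourierApprox w S M ∧
      ∃ (X : Type) (_ : MeasurableSpace X) (μ : Measure X) (T : X ≃ᵐ X),
        IsProbabilityMeasure μ ∧ Ergodic T μ ∧
        ∀ r : ℝ, 1 / 2 < r → r < 1 →
          ∃ p q : ℝ, 1 < p ∧ 1 < q ∧ 1 / p + 1 / q = 1 / r ∧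
            ∃ f g : X → ℂ, MemLp f (ENNReal.ofReal p) μ ∧ MemLp g (ENNReal.ofReal q) μ ∧
              ∀ᵐ x ∂μ,
                ¬ BddAbove (Set.range fun N : ℕ => ‖bilinearAverage w T f g N x‖) ∧
                ¬ ∃ L : ℂ, Tendsto (fun N : ℕ => bilinearAverage w T f g N x) atTop (𝓝 L) := by
  refine ⟨wt, Sc, Ml, admissible_wt, fourier_h, ℤ_[2], mZ2, haar2, odo, inferInstance,
    odo_ergodic, ?_⟩
  intro r h1 h2
  obtain ⟨p, q, hp, hq, hpq, hlow⟩ := exponents r h1 h2
  obtain ⟨f, g, hf, hg, hae⟩ := divergence p q hp hq hlow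
  refine ⟨p, q, hp, hq, hpq, f, g, hf, hg, ?_⟩
  filter_upwards [hae] with x hx
  refine ⟨hx, ?_⟩
  rintro ⟨L, hL⟩
  exact hx hL.norm.bddAbove_range

end Pool.Agent.Results.MP_365e45_an.DivergenceBelowOne
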